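import Pool.Agent.MP_337c4e_co.Defs

namespace Pool.Agent.MP_337c4e_co

/-- `M` is representable over the field `F`. -/
def IsRepresentable (F : Type) [Field F] {α : Type} (M : Matroid α) : Prop :=
  ∃ (n : ℕ) (φ : α → Fin n → F), ∀ I : Set α, M.Indep I ↔ LinearIndepOn F φ I

/-- Some matroid design that is representable over `F` has the parameters `(b, v, r, k, lam)`. -/
def MatroidalOver (F : Type) [Field F] (b v r k lam : ℕ) : Prop :=
  ∃ (α : Type) (_ : Fintype α) (M : Matroid α),
    IsRepresentable F M ∧ IsMatroidDesign M b v r k lam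

end Pool.Agent.MP_337c4e_co
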